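import Pool.Agent.Helper524.GL.Main
import Pool.Agent.Helper524.GL.Vari

/-! The theorem on pairwise comparable subsets of the cube (starting files, S09173), restated without
importing the frozen statement. -/

set_option autoImplicit false

namespace Pool.Agent.R99.GL

/-- There exist δ>0 and C such that for every N, every set S of points in {0..N-1}^3 in which any two distinct points differ with one exceeding the other in at least two coordinates has at most C·N^(2-δ) elements. -/
theorem gowersLong :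
    ∃ δ : ℝ, δ > 0 ∧ ∃ C : ℝ, ∀ N : ℕ, ∀ S : Finset (ℕ × ℕ × ℕ),
      (∀ s ∈ S, s.1 < N ∧ s.2.1 < N ∧ s.2.2 < N) →
      (∀ s ∈ S, ∀ t ∈ S, s ≠ t →
        ((t.1 < s.1 ∧ t.2.1 < s.2.1) ∨ (t.1 < s.1 ∧ t.2.2 < s.2.2) ∨
         (t.2.1 < s.2.1 ∧ t.2.2 < s.2.2) ∨
         (s.1 < t.1 ∧ s.2.1 < t.2.1) ∨ (s.1 < t.1 ∧ s.2.2 < t.2.2) ∨
         (s.2.1 < t.2.1 ∧ s.2.2 < t.2.2))) →
      (S.card : ℝ) ≤ C * (N : ℝ) ^ (2 - δ) := by
  classical
  obtain ⟨K, hK⟩ := GoLo.no_sys
  have hl2 : 0 < Real.log 2 := Real.log_pos (by norm_num)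
  have hK0 : (0:ℝ) ≤ K := by positivity
  set eta : ℝ := 1 / (36 * ((K:ℝ) + 1)) with heta
  have heta0 : 0 < eta := by positivity
  have heta1 : eta ≤ 1/36 := by
    rw [heta]
    apply one_div_le_one_div_of_le (by norm_num)
    linarith
  set Ph : ℝ := 8 * 2^K with hPh
  have hPh0 : 0 < Ph := by positivity
  refine ⟨3 * eta, by positivity, Real.exp Ph, ?_⟩
  intro N S hN hcomp
  by_contra hcon
  push Not at hcon
  have hSne : S.Nonempty := by
    by_contra hne
    rw [Finset.not_nonempty_iff_eq_empty] at hne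
    rw [hne] at hcon
    simp only [Finset.card_empty, Nat.cast_zero] at hcon
    have : (0:ℝ) ≤ Real.exp Ph * (N:ℝ)^(2 - 3 * eta) := by positivity
    linarith
  have hN0 : 0 < N := by
    obtain ⟨s, hs⟩ := hSne
    have := (hN s hs).1
    omega
  have hN0' : (0:ℝ) < N := by exact_mod_cast hN0
  have hbig : Ph ≤ Real.log S.card - (2/3 - eta) * (3 * Real.log N) := by
    have h1 : Real.log (Real.exp Ph * (N:ℝ)^(2 - 3 * eta)) ≤ Real.log S.card :=
      Real.log_le_log (by positivity) hcon.le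
    rw [Real.log_mul (by positivity) (by positivity), Real.log_exp, Real.log_rpow hN0'] at h1
    linarith
  obtain ⟨Ω, hΩ, μ, W, hμ, h1, inj, mono, hvar, hatom⟩ :=
    GoLo.variational N S hSne hN hcomp (2/3 - eta) Ph (by linarith) hPh0 hbig
  have hs : 4 * (2^K * (Real.log 2 / Ph)) + 18 * eta * (K * Real.log 2) ≤ Real.log 2 := by
    have e1 : 4 * (2^K * (Real.log 2 / Ph)) = Real.log 2 / 2 := by
      rw [hPh]; field_simp; ring
    have e2 : 18 * eta * (K * Real.log 2) ≤ Real.log 2 / 2 := by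
      rw [heta]
      have : 18 * (1 / (36 * ((K:ℝ)+1))) * (K * Real.log 2) = (K / (K+1)) * (Real.log 2 / 2) := by
        field_simp
        ring
      rw [this]
      have : (K:ℝ) / (K+1) ≤ 1 := by
        rw [div_le_one (by positivity)]
        linarith
      exact mul_le_of_le_one_left (by positivity) this
    linarith
  exact hK Ω μ W _ (GoLo.mk_sys K eta (Real.log 2 / Ph) heta0.le (by positivity) hs Ω μ W hμ h1 inj mono hvar hatom)

end Pool.Agent.R99.GL
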